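import Pool.Agent.helper16.GK.Spec

set_option autoImplicit false

namespace Pool.Agent.GK

open NumberField IsDedekindDomain

theorem GSW (hNNO : NNO_stmt) (hUNR : UNR_stmt) (hFRB : FRB_stmt) : GSW_stmt := by
  intro K E _ _ _ _ _ _ μ _ r n P Q w T hT hw hH hW
  have hB := hUNR E
  have hT' : (T ∪ ⋃ q ∈ {q : ℕ | q.Prime ∧ ¬ Pool.Agent.RG.IsUnr E q}, {v : Pl K | q ∣ nv K v}).Finite := by
    refine hT.union ?_
    exact Set.Finite.biUnion hB (fun q hq => (hFRB K).finite q hq.1)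
  refine ⟨{v | v ∉ (T ∪ ⋃ q ∈ {q : ℕ | q.Prime ∧ ¬ Pool.Agent.RG.IsUnr E q}, {v : Pl K | q ∣ nv K v}) ∧ (nv K v).Prime},
    ⟨le_refl _, hw, hNNO K μ _ hT', ?_, ?_⟩⟩
  · rintro v ⟨hv1, hv2⟩
    refine ⟨hv2.two_le, hH v (fun h => hv1 (Or.inl h)), Or.inr ⟨rfl, ?_⟩⟩
    by_contra hn
    apply hv1
    right
    rw [Set.mem_iUnion₂]
    exact ⟨nv K v, ⟨hv2, hn⟩, dvd_refl _⟩
  · rintro v ⟨hv1, hv2⟩ i hi
    exact hW v (fun h => hv1 (Or.inl h)) i hi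

end Pool.Agent.GK
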